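import Mathlib

/-!
# Derivatives along a flow: if the differences have mean zero, so does the derivative
-/

set_option autoImplicit false

namespace Pool.Agent.Zk39.TT

open Finset Filter Topology MeasureTheory

variable {Y : Type} [TopologicalSpace Y] {k : ℕ} {R : Flow ℝ Y}

theorem der_at {b D : Y → Fin k → ℝ} (hder : ∀ z, HasDerivAt (fun s => b (R s z)) (D z) 0)
    (t : ℝ) (z : Y) : HasDerivAt (fun s => b (R s z)) (D (R t z)) t := by
  have h1 : HasDerivAt (fun s => b (R s (R t z))) (D (R t z)) (t - t) := by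
    rw [sub_self]
    exact hder (R t z)
  have h2 := h1.comp_sub_const t t
  have e : (fun s => b (R (s - t) (R t z))) = fun s => b (R s z) := by
    funext s
    rw [← R.map_add, sub_add_cancel]
  rw [e] at h2
  exact h2

theorem cont_line {D : Y → Fin k → ℝ} (hD : Continuous D) (z : Y) : Continuous fun s : ℝ => D (R s z) :=
  hD.comp (R.cont'.comp (by fun_prop : Continuous fun s : ℝ => (s, z)))

theorem ftc {b D : Y → Fin k → ℝ} (hD : Continuous D)
    (hder : ∀ z, HasDerivAt (fun s => b (R s z)) (D z) 0) (η : ℝ) (z : Y) :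
    ∫ s in (0 : ℝ)..η, D (R s z) = b (R η z) - b z := by
  have h := intervalIntegral.integral_eq_sub_of_hasDerivAt (a := 0) (b := η) (f := fun s => b (R s z))
    (f' := fun s => D (R s z)) (fun t _ => der_at hder t z) ((cont_line hD z).intervalIntegrable _ _)
  rw [h]
  simp only [R.map_zero_apply]

theorem modulus [CompactSpace Y] {D : Y → Fin k → ℝ} (hD : Continuous D) {δ : ℝ} (hδ : 0 < δ) :
    ∃ r : ℝ, 0 < r ∧ ∀ η : ℝ, |η| < r → ∀ z, ‖D (R η z) - D z‖ ≤ δ := by
  have ho : IsOpen {q : ℝ × Y | ‖D (R q.1 q.2) - D q.2‖ < δ} := by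
    refine isOpen_lt ?_ continuous_const
    exact ((hD.comp R.cont').sub (hD.comp continuous_snd)).norm
  obtain ⟨u, v, hu, hv, h1, h2, h3⟩ := generalized_tube_lemma (s := {(0 : ℝ)}) isCompact_singleton
    (t := (Set.univ : Set Y)) isCompact_univ ho (by
      rintro ⟨a, x⟩ ⟨ha, -⟩
      rw [Set.mem_singleton_iff] at ha
      subst ha
      show ‖D (R 0 x) - D x‖ < δ
      rw [R.map_zero_apply, sub_self, norm_zero]
      exact hδ)
  have h4 : u ∈ 𝓝 (0 : ℝ) := hu.mem_nhds (h1 rfl)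
  obtain ⟨r, hr, hrA⟩ := Metric.mem_nhds_iff.1 h4
  refine ⟨r, hr, fun η hη x => ?_⟩
  have h5 : (η, x) ∈ u ×ˢ v := ⟨hrA (by rwa [Metric.mem_ball, dist_zero_right, Real.norm_eq_abs]), h2 trivial⟩
  exact (h3 h5).le

/-- the Birkhoff averages of the derivative along the flow tend to zero uniformly -/
theorem avg_D [CompactSpace Y] {S : Y → Y} (hdiff : ∀ s : ℝ, ∀ f : C(Y, ℂ), ∀ ε : ℝ, 0 < ε → ∃ m₀ : ℕ, ∀ m ≥ m₀, ∀ z,
      ‖∑ j ∈ range m, (f (R s (S^[j] z)) - f (S^[j] z))‖ ≤ ε * m)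
    {b D : Y → Fin k → ℝ} (hb : Continuous b) (hD : Continuous D)
    (hder : ∀ z, HasDerivAt (fun s => b (R s z)) (D z) 0) (ε : ℝ) (hε : 0 < ε) :
    ∃ m₀ : ℕ, ∀ m ≥ m₀, ∀ z, ‖∑ j ∈ range m, D (S^[j] z)‖ ≤ ε * m := by
  obtain ⟨r, hr, h1⟩ := modulus (R := R) hD (show 0 < ε / 4 by positivity)
  set s : ℝ := r / 2 with hs
  have hs0 : 0 < s := by positivity
  have hsr : s < r := by rw [hs]; linarith
  -- the difference quotient is close to the derivative
  have h2 : ∀ z, ‖(b (R s z) - b z) - s • D z‖ ≤ ε / 4 * s := by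
    intro z
    have h3 : (b (R s z) - b z) - s • D z = ∫ u in (0 : ℝ)..s, (D (R u z) - D z) := by
      rw [intervalIntegral.integral_sub ((cont_line hD z).intervalIntegrable _ _)
        (continuous_const.intervalIntegrable _ _), ftc hD hder, intervalIntegral.integral_const, sub_zero]
    rw [h3]
    refine (intervalIntegral.norm_integral_le_of_norm_le_const (C := ε / 4) fun u hu => ?_).trans
      (by rw [sub_zero, abs_of_pos hs0])
    rw [Set.uIoc_of_le hs0.le] at hu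
    exact h1 u (by rw [abs_of_pos hu.1]; exact hu.2.trans_lt hsr) z
  -- each coordinate of the difference has mean zero
  have h3 : ∀ i : Fin k, ∃ m₀ : ℕ, ∀ m ≥ m₀, ∀ z,
      |∑ j ∈ range m, (b (R s (S^[j] z)) i - b (S^[j] z) i)| ≤ ε / 4 * s * m := by
    intro i
    obtain ⟨m₀, hm₀⟩ := hdiff s ⟨fun z => ((b z i : ℝ) : ℂ),
      Complex.continuous_ofReal.comp ((continuous_apply i).comp hb)⟩ (ε / 4 * s) (by positivity)
    refine ⟨m₀, fun m hm z => ?_⟩
    have h4 := hm₀ m hm z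
    simp only [ContinuousMap.coe_mk] at h4
    have e : ∑ j ∈ range m, (((b (R s (S^[j] z)) i : ℝ) : ℂ) - ((b (S^[j] z) i : ℝ) : ℂ)) =
        ((∑ j ∈ range m, (b (R s (S^[j] z)) i - b (S^[j] z) i) : ℝ) : ℂ) := by
      push_cast
      rfl
    rw [e, Complex.norm_real, Real.norm_eq_abs] at h4
    exact h4
  choose m₀ hm₀ using h3
  refine ⟨univ.sup m₀, fun m hm z => ?_⟩
  have h4 : ‖∑ j ∈ range m, (b (R s (S^[j] z)) - b (S^[j] z))‖ ≤ ε / 4 * s * m := by
    refine (pi_norm_le_iff_of_nonneg (by positivity)).2 fun i => ?_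
    rw [Finset.sum_apply, Real.norm_eq_abs]
    exact hm₀ i m (le_trans (Finset.le_sup (mem_univ i)) hm) z
  have h5 : s • ∑ j ∈ range m, D (S^[j] z) =
      ∑ j ∈ range m, (b (R s (S^[j] z)) - b (S^[j] z)) -
      ∑ j ∈ range m, ((b (R s (S^[j] z)) - b (S^[j] z)) - s • D (S^[j] z)) := by
    rw [← sum_sub_distrib, smul_sum]
    refine sum_congr rfl fun j _ => ?_
    abel
  have h6 : ‖∑ j ∈ range m, ((b (R s (S^[j] z)) - b (S^[j] z)) - s • D (S^[j] z))‖ ≤ ε / 4 * s * m := by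
    refine (norm_sum_le _ _).trans ?_
    calc _ ≤ ∑ _j ∈ range m, ε / 4 * s := sum_le_sum fun j _ => h2 _
      _ = ε / 4 * s * m := by simp [mul_comm]
  have h7 : s * ‖∑ j ∈ range m, D (S^[j] z)‖ ≤ s * (ε * m) := by
    calc s * ‖∑ j ∈ range m, D (S^[j] z)‖ = ‖s • ∑ j ∈ range m, D (S^[j] z)‖ := by
          rw [norm_smul, Real.norm_eq_abs, abs_of_pos hs0]
      _ ≤ ε / 4 * s * m + ε / 4 * s * m := by
          rw [h5]
          exact (norm_sub_le _ _).trans (add_le_add h4 h6)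
      _ ≤ s * (ε * m) := by
          have : 0 ≤ s * (ε * m) := by positivity
          nlinarith
  exact le_of_mul_le_mul_left h7 hs0

/-- if the averages of all continuous functions converge uniformly to constants, then the differences along a flow
that commutes with the map have mean zero -/
theorem diff_ue {S : Y → Y} (hcomm : ∀ (η : ℝ) y, S (R η y) = R η (S y))
    (hue : ∀ f : C(Y, ℂ), ∃ c : ℂ, ∀ ε : ℝ, 0 < ε → ∃ N₀ : ℕ, ∀ N ≥ N₀, ∀ y,
      ‖∑ n ∈ range N, f (S^[n] y) - N * c‖ ≤ ε * N) (s : ℝ) (f : C(Y, ℂ)) (ε : ℝ) (hε : 0 < ε) :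
    ∃ m₀ : ℕ, ∀ m ≥ m₀, ∀ z, ‖∑ j ∈ range m, (f (R s (S^[j] z)) - f (S^[j] z))‖ ≤ ε * m := by
  obtain ⟨c, hc⟩ := hue f
  obtain ⟨N₀, hN₀⟩ := hc (ε / 2) (by positivity)
  have hit : ∀ (j : ℕ) (z : Y), R s (S^[j] z) = S^[j] (R s z) := by
    intro j z
    induction j with
    | zero => rfl
    | succ j ih => rw [Function.iterate_succ_apply', Function.iterate_succ_apply', ← hcomm, ih]
  refine ⟨N₀, fun m hm z => ?_⟩
  have e : ∑ j ∈ range m, (f (R s (S^[j] z)) - f (S^[j] z)) =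
      (∑ j ∈ range m, f (S^[j] (R s z)) - m * c) - (∑ j ∈ range m, f (S^[j] z) - m * c) := by
    rw [sum_sub_distrib]
    simp only [hit]
    ring
  rw [e]
  refine (norm_sub_le _ _).trans ?_
  have h1 := hN₀ m hm (R s z)
  have h2 := hN₀ m hm z
  linarith

end Pool.Agent.Zk39.TT
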