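import Mathlib

/-!
# Isometric extensions of circle bundles: the fibres over the base of the bundle are covered by few windows
-/

set_option autoImplicit false

namespace Pool.Agent.Zk39.TT

open Finset Filter Topology MeasureTheory

/-- the extension `T(y, z) = (S y, z + ψ(y))` -/
def ext {Y K : Type} [Add K] (S : Y → Y) (ψ : Y → K) (x : Y × K) : Y × K := (S x.1, x.2 + ψ x.1)

theorem ext_iter {Y K : Type} [AddCommMonoid K] (S : Y → Y) (ψ : Y → K) (m : ℕ) (y : Y) (z : K) :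
    (ext S ψ)^[m] (y, z) = (S^[m] y, z + ∑ j ∈ range m, ψ (S^[j] y)) := by
  induction m with
  | zero => simp
  | succ m ih =>
    rw [Function.iterate_succ_apply', ih, Function.iterate_succ_apply', sum_range_succ, ← add_assoc]
    rfl

section

variable {Y K : Type} [TopologicalSpace Y] [CompactSpace Y] [AddCommGroup K] [TopologicalSpace K]
  [IsTopologicalAddGroup K] [CompactSpace K]

theorem small (F : C(Y × K, ℂ)) (R : Flow ℝ Y) {δ : ℝ} (hδ : 0 < δ) :
    ∃ r : ℝ, 0 < r ∧ ∃ U ∈ 𝓝 (0 : K), ∀ η : ℝ, |η| < r → ∀ u ∈ U, ∀ x : Y × K, ‖F (R η x.1, x.2 + u) - F x‖ ≤ δ := by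
  have ho : IsOpen {q : (ℝ × K) × (Y × K) | ‖F (R q.1.1 q.2.1, q.2.2 + q.1.2) - F q.2‖ < δ} := by
    refine isOpen_lt ?_ continuous_const
    refine ((F.continuous.comp ?_).sub (F.continuous.comp continuous_snd)).norm
    refine Continuous.prodMk ?_ ?_
    · exact R.cont'.comp (by fun_prop : Continuous fun q : (ℝ × K) × (Y × K) => (q.1.1, q.2.1))
    · fun_prop
  obtain ⟨u, v, hu, hv, h1, h2, h3⟩ := generalized_tube_lemma (s := {((0 : ℝ), (0 : K))}) isCompact_singleton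
    (t := (Set.univ : Set (Y × K))) isCompact_univ ho (by
      rintro ⟨⟨a, b⟩, x⟩ ⟨ha, -⟩
      rw [Set.mem_singleton_iff, Prod.mk.injEq] at ha
      obtain ⟨rfl, rfl⟩ := ha
      show ‖F (R 0 x.1, x.2 + 0) - F x‖ < δ
      rw [R.map_zero_apply, add_zero, sub_self, norm_zero]
      exact hδ)
  have h4 : u ∈ 𝓝 ((0 : ℝ), (0 : K)) := hu.mem_nhds (h1 rfl)
  rw [nhds_prod_eq, mem_prod_iff] at h4
  obtain ⟨A, hA, U, hU, hAU⟩ := h4
  obtain ⟨r, hr, hrA⟩ := Metric.mem_nhds_iff.1 hA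
  refine ⟨r, hr, U, hU, fun η hη w hw x => ?_⟩
  have h5 : ((η, w), x) ∈ u ×ˢ v := ⟨hAU ⟨hrA (by rwa [Metric.mem_ball, dist_zero_right, Real.norm_eq_abs]), hw⟩, h2 trivial⟩
  exact (h3 h5).le

end

variable {Y Y₀ K E : Type} [TopologicalSpace Y] [CompactSpace Y] [AddCommGroup K] [TopologicalSpace K]
  [IsTopologicalAddGroup K] [CompactSpace K] [NormedAddCommGroup E] [NormedSpace ℝ E]

theorem flow_iter {S : Y → Y} {R : Flow ℝ Y} (hcomm : ∀ (η : ℝ) y, S (R η y) = R η (S y)) (j : ℕ) (η : ℝ) (y : Y) :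
    S^[j] (R η y) = R η (S^[j] y) := by
  induction j with
  | zero => rfl
  | succ j ih => rw [Function.iterate_succ_apply', ih, hcomm, Function.iterate_succ_apply']

/-- the difference of the cocycle at two points of a circle -/
theorem cocycle_diff {S : Y → Y} {R : Flow ℝ Y} (hcomm : ∀ (η : ℝ) y, S (R η y) = R η (S y)) (hS : Continuous S)
    {D : Y → E} (hD : Continuous D) (ι : E →+ K) {ψ : Y → K}
    (hψ : ∀ (η : ℝ) y, ψ (R η y) = ψ y + ι (∫ s in (0 : ℝ)..η, D (R s y))) (m : ℕ) {M : ℝ}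
    (hM : ∀ y, ‖∑ j ∈ range m, D (S^[j] y)‖ ≤ M) (η : ℝ) (y : Y) :
    ∃ e : E, ‖e‖ ≤ M * |η| ∧ ∑ j ∈ range m, ψ (S^[j] (R η y)) = ∑ j ∈ range m, ψ (S^[j] y) + ι e := by
  have hc : ∀ j, Continuous fun s : ℝ => D (R s (S^[j] y)) := fun j =>
    hD.comp (R.cont'.comp (by fun_prop : Continuous fun s : ℝ => (s, S^[j] y)))
  refine ⟨∫ s in (0 : ℝ)..η, ∑ j ∈ range m, D (R s (S^[j] y)), ?_, ?_⟩
  · refine (intervalIntegral.norm_integral_le_of_norm_le_const (C := M) fun s _ => ?_).trans (by rw [sub_zero])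
    rw [sum_congr rfl fun j _ => by rw [← flow_iter hcomm j s y]]
    exact hM _
  · rw [intervalIntegral.integral_finset_sum fun j _ => (hc j).intervalIntegrable _ _, map_sum, ← sum_add_distrib]
    refine sum_congr rfl fun j _ => ?_
    rw [flow_iter hcomm, hψ]

/-- the covering of the fibres -/
theorem cover {S : Y → Y} {R : Flow ℝ Y} (hR : ∀ y, R 1 y = y) (hcomm : ∀ (η : ℝ) y, S (R η y) = R η (S y))
    (hS : Continuous S) (p : Y → Y₀) (hfib : ∀ y y', p y = p y' → ∃ η : ℝ, y' = R η y)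
    {D : Y → E} (hD : Continuous D) (ι : E →+ K) (hι : Continuous ι) {ψ : Y → K}
    (hψ : ∀ (η : ℝ) y, ψ (R η y) = ψ y + ι (∫ s in (0 : ℝ)..η, D (R s y)))
    (havg : ∀ ε : ℝ, 0 < ε → ∃ m₀ : ℕ, ∀ m ≥ m₀, ∀ y, ‖∑ j ∈ range m, D (S^[j] y)‖ ≤ ε * m)
    (F : C(Y × K, ℂ)) {δ : ℝ} (hδ : 0 < δ) :
    ∃ H : ℕ, 1 ≤ H ∧ ∀ w : Y₀, ∃ A : Finset (Y × K), (A.card : ℝ) ≤ δ * H ∧ ∀ x : Y × K, p x.1 = w →
      ∃ a ∈ A, ∑ m ∈ range H, ‖F ((ext S ψ)^[m] x) - F ((ext S ψ)^[m] a)‖ ≤ δ * H := by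
  classical
  obtain ⟨r, hr, U, hU, hF⟩ := small F R hδ
  -- a neighbourhood `V` with `V + V ⊆ U`
  obtain ⟨V, hVo, hV0, hVU⟩ := exists_open_nhds_zero_add_subset hU
  -- a finite net of `K`
  obtain ⟨B, hB⟩ : ∃ B : Finset K, ∀ z : K, ∃ b ∈ B, z - b ∈ V := by
    obtain ⟨B, hB⟩ := isCompact_univ.elim_nhds_subcover (fun b : K => {z : K | z - b ∈ V}) (fun b _ => by
      refine IsOpen.mem_nhds (hVo.preimage (continuous_id.sub continuous_const)) ?_
      show b - b ∈ V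
      rwa [sub_self])
    refine ⟨B, fun z => ?_⟩
    have := hB.2 (Set.mem_univ z)
    simp only [Set.mem_iUnion, exists_prop] at this
    exact this
  obtain ⟨ρ, hρ, hρV⟩ : ∃ ρ : ℝ, 0 < ρ ∧ ∀ e : E, ‖e‖ < ρ → ι e ∈ V := by
    have h1 : ι ⁻¹' V ∈ 𝓝 (0 : E) := hι.continuousAt.preimage_mem_nhds (by rw [map_zero]; exact hVo.mem_nhds hV0)
    obtain ⟨ρ, hρ, h2⟩ := Metric.mem_nhds_iff.1 h1
    exact ⟨ρ, hρ, fun e he => h2 (by rwa [Metric.mem_ball, dist_zero_right])⟩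
  -- the bound of `D`
  obtain ⟨C, hC0, hC⟩ : ∃ C : ℝ, 0 ≤ C ∧ ∀ y, ‖D y‖ ≤ C := by
    obtain ⟨C, hC⟩ := (isCompact_range hD).isBounded.exists_norm_le
    exact ⟨max C 0, le_max_right _ _, fun y => (hC _ ⟨y, rfl⟩).trans (le_max_left _ _)⟩
  set Kc : ℝ := 2 * (B.card + 1) / δ with hKc
  have hKc0 : 0 < Kc := by positivity
  obtain ⟨m₀, hm₀⟩ := havg (ρ / (4 * Kc)) (by positivity)
  obtain ⟨H, hH⟩ := exists_nat_gt (1 + Kc + Kc / r + 4 * Kc * C * m₀ / ρ)
  have hH1 : (1 : ℝ) < H := by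
    have h1 : 0 ≤ Kc / r := by positivity
    have h2 : 0 ≤ 4 * Kc * C * m₀ / ρ := by positivity
    linarith
  have hHK : Kc < H := by
    have h1 : 0 ≤ Kc / r := by positivity
    have h2 : 0 ≤ 4 * Kc * C * m₀ / ρ := by positivity
    linarith
  have hHr : Kc / H < r := by
    have h2 : 0 ≤ 4 * Kc * C * m₀ / ρ := by positivity
    have h3 : Kc / r < H := by linarith
    rw [div_lt_iff₀ hr] at h3
    rw [div_lt_iff₀ (by linarith)]
    linarith
  have hHC : 4 * Kc * C * m₀ / ρ < H := by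
    have h1 : 0 ≤ Kc / r := by positivity
    linarith
  have hH0 : (0 : ℝ) < H := by linarith
  have hM : ∀ m < H, ∀ y, ‖∑ j ∈ range m, D (S^[j] y)‖ ≤ ρ / (2 * Kc) * H := by
    intro m hm y
    have hmR : (m : ℝ) ≤ H := by exact_mod_cast hm.le
    rcases le_or_gt m₀ m with h | h
    · refine (hm₀ m h y).trans ?_
      have h1 : ρ / (4 * Kc) * m ≤ ρ / (4 * Kc) * H := mul_le_mul_of_nonneg_left hmR (by positivity)
      have h2 : ρ / (2 * Kc) * H = 2 * (ρ / (4 * Kc) * H) := by field_simp; ring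
      have h3 : 0 ≤ ρ / (4 * Kc) * H := by positivity
      linarith
    · refine (norm_sum_le _ _).trans ?_
      have h1 : ∑ j ∈ range m, ‖D (S^[j] y)‖ ≤ m * C := by
        refine (sum_le_sum fun j _ => hC _).trans ?_
        simp
      have h2 : (m : ℝ) * C ≤ m₀ * C := mul_le_mul_of_nonneg_right (by exact_mod_cast h.le) hC0
      have h3 : (m₀ : ℝ) * C ≤ ρ / (2 * Kc) * H := by
        rw [div_lt_iff₀ hρ] at hHC
        rw [div_mul_eq_mul_div, le_div_iff₀ (by positivity)]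
        nlinarith
      linarith
  set J : ℕ := ⌈(H : ℝ) / Kc⌉₊ with hJ
  have hJ0 : 0 < J := Nat.ceil_pos.2 (by positivity)
  have hJR : (0 : ℝ) < J := by exact_mod_cast hJ0
  have hJ1 : (H : ℝ) / Kc ≤ J := Nat.le_ceil _
  have hJ2 : (J : ℝ) ≤ 2 * (H / Kc) := by
    have h1 : (J : ℝ) < H / Kc + 1 := Nat.ceil_lt_add_one (by positivity)
    have h2 : 1 ≤ (H : ℝ) / Kc := by rw [le_div_iff₀ hKc0]; linarith
    linarith
  have hJinv : 1 / (J : ℝ) ≤ Kc / H := by
    rw [div_le_div_iff₀ hJR hH0]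
    rw [div_le_iff₀ hKc0] at hJ1
    linarith
  refine ⟨H, by exact_mod_cast hH1.le, fun w => ?_⟩
  by_cases hw : ∃ y : Y, p y = w
  swap
  · refine ⟨∅, by simp; positivity, fun x hx => absurd ⟨x.1, hx⟩ hw⟩
  obtain ⟨y₀, hy₀⟩ := hw
  refine ⟨(range J ×ˢ B).image fun q => (R ((q.1 : ℝ) / J) y₀, q.2), ?_, ?_⟩
  · have h1 : (((range J ×ˢ B).image fun q => (R ((q.1 : ℝ) / J) y₀, q.2)).card : ℝ) ≤ (J * B.card : ℕ) := by
      refine Nat.cast_le.2 (card_image_le.trans ?_)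
      rw [card_product, card_range]
    refine h1.trans ?_
    push_cast
    calc (J : ℝ) * B.card ≤ 2 * (H / Kc) * (B.card + 1) :=
          mul_le_mul hJ2 (by linarith) (Nat.cast_nonneg _) (by positivity)
      _ = δ * H := by rw [hKc]; field_simp
  · rintro ⟨y, z⟩ hx
    simp only at hx
    obtain ⟨η₀, hη₀⟩ := hfib y₀ y (hy₀.trans hx.symm)
    -- normalise the time
    have hper : ∀ (n : ℕ) (y : Y), R (n : ℝ) y = y := by
      intro n y
      induction n with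
      | zero => rw [Nat.cast_zero, R.map_zero_apply]
      | succ n ih => rw [Nat.cast_succ, R.map_add, hR, ih]
    have hperz : ∀ (n : ℤ) (y : Y), R (n : ℝ) y = y := by
      intro n y
      rcases Int.eq_nat_or_neg n with ⟨k, rfl | rfl⟩
      · exact_mod_cast hper k y
      · have h1 := hper k (R ((-(k : ℤ) : ℤ) : ℝ) y)
        rw [← R.map_add] at h1
        push_cast at h1
        rw [add_neg_cancel, R.map_zero_apply] at h1
        push_cast
        exact h1.symm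
    set η : ℝ := Int.fract η₀ with hη
    have hη0 : 0 ≤ η := Int.fract_nonneg _
    have hη1 : η < 1 := Int.fract_lt_one _
    have hyη : y = R η y₀ := by
      rw [hη₀]
      have h1 : η₀ = (⌊η₀⌋ : ℝ) + η := (Int.floor_add_fract η₀).symm
      conv_lhs => rw [h1]
      rw [R.map_add, hperz]
    set i : ℕ := ⌊η * J⌋₊ with hi
    have hi1 : (i : ℝ) ≤ η * J := Nat.floor_le (by positivity)
    have hi2 : η * J < i + 1 := Nat.lt_floor_add_one _
    have hiJ : i < J := by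
      have : (i : ℝ) < J := lt_of_le_of_lt hi1 (by nlinarith)
      exact_mod_cast this
    obtain ⟨b, hb, hzb⟩ := hB z
    refine ⟨(R ((i : ℝ) / J) y₀, b), mem_image.2 ⟨(i, b), mem_product.2 ⟨mem_range.2 hiJ, hb⟩, rfl⟩, ?_⟩
    set yi : Y := R ((i : ℝ) / J) y₀ with hyi
    set s : ℝ := η - i / J with hs
    have hs0 : 0 ≤ s := by
      rw [hs, sub_nonneg, div_le_iff₀ hJR]
      exact hi1
    have hs1 : s ≤ Kc / H := by
      refine le_trans ?_ hJinv
      rw [hs, sub_le_iff_le_add, ← add_div, le_div_iff₀ hJR]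
      linarith
    have hys : y = R s yi := by
      rw [hyi, ← R.map_add, hs, sub_add_cancel]
      exact hyη
    calc ∑ m ∈ range H, ‖F ((ext S ψ)^[m] (y, z)) - F ((ext S ψ)^[m] (yi, b))‖ ≤ ∑ m ∈ range H, δ := by
          refine sum_le_sum fun m hm => ?_
          obtain ⟨e, he, hsum⟩ := cocycle_diff hcomm hS hD ι hψ m (hM m (mem_range.1 hm)) s yi
          rw [ext_iter, ext_iter, hys, hsum, flow_iter hcomm]
          have heρ : ‖e‖ < ρ := by
            refine lt_of_le_of_lt he ?_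
            rw [abs_of_nonneg hs0]
            calc ρ / (2 * Kc) * H * s ≤ ρ / (2 * Kc) * H * (Kc / H) := mul_le_mul_of_nonneg_left hs1 (by positivity)
              _ = ρ / 2 := by field_simp
              _ < ρ := by linarith
          have hzz : z + (∑ j ∈ range m, ψ (S^[j] yi) + ι e) =
              (b + ∑ j ∈ range m, ψ (S^[j] yi)) + ((z - b) + ι e) := by abel
          rw [hzz]
          exact hF s (by rw [abs_of_nonneg hs0]; exact hs1.trans_lt hHr) _
            (hVU (Set.add_mem_add hzb (hρV e heρ))) (S^[m] yi, b + ∑ j ∈ range m, ψ (S^[j] yi))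
      _ = δ * H := by simp [mul_comm]

end Pool.Agent.Zk39.TT
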