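import Pool.Agent.Y842.CX.Rot
import Pool.Agent.H469R2.NK.Vdc
import Pool.Agent.Zk39.TT.Cover

/-!
# Circle extensions of rotations by characters: derivatives along the circle have mean zero
-/

set_option autoImplicit false

namespace Pool.Agent.Zk39.TT

open Finset Filter Topology MeasureTheory
open Pool.Agent.Y842.CX (chars chars_dense)

/-- triangular numbers -/
def tri : ℕ → ℕ
  | 0 => 0
  | n + 1 => tri n + n

theorem tri_add (n l : ℕ) : tri (n + l) = tri n + tri l + n * l := by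
  induction l with
  | zero => simp [tri]
  | succ l ih =>
    rw [← add_assoc, tri, ih, tri]
    ring

theorem geom_bd {q : ℂ} (hq : ‖q‖ = 1) (hq1 : q ≠ 1) (N : ℕ) : ‖∑ n ∈ range N, q ^ n‖ ≤ 2 / ‖q - 1‖ := by
  rw [geom_sum_eq hq1, norm_div]
  apply div_le_div_of_nonneg_right _ (norm_nonneg _)
  refine (norm_sub_le _ _).trans ?_
  rw [norm_pow, hq, one_pow, norm_one]
  norm_num

/-- Weyl's estimate, uniform in the linear coefficient -/
theorem weyl {q : ℂ} (hq : ‖q‖ = 1) (hq1 : ∀ n : ℕ, 1 ≤ n → q ^ n ≠ 1) {ε : ℝ} (hε : 0 < ε) :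
    ∃ m₀ : ℕ, ∀ m ≥ m₀, ∀ w : ℂ, ‖w‖ = 1 → ‖∑ j ∈ range m, w ^ j * q ^ tri j‖ ≤ ε * m := by
  obtain ⟨H, hH⟩ := exists_nat_gt (4 / ε ^ 2)
  have hH0 : (0 : ℝ) < H := lt_trans (by positivity) hH
  set C : ℝ := 2 * ∑ l ∈ Ico 1 H, 2 / ‖q ^ l - 1‖ with hC
  obtain ⟨M, hM⟩ := exists_nat_gt (H + C)
  refine ⟨M + H, fun m hm w hw => ?_⟩
  have hC0 : 0 ≤ C := by positivity
  have hmM : (M : ℝ) + H ≤ m := by exact_mod_cast hm
  have h1 := Pool.Agent.H469R2.NK.vdcH (fun j => w ^ j * q ^ tri j) (fun j => by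
    rw [norm_mul, norm_pow, norm_pow, hw, hq, one_pow, one_pow, one_mul]) m H
  have h2 : ∀ l ∈ Ico 1 H, ‖∑ n ∈ range (m - l), w ^ (n + l) * q ^ tri (n + l) *
      (starRingEnd ℂ) (w ^ n * q ^ tri n)‖ ≤ 2 / ‖q ^ l - 1‖ := by
    intro l hl
    have hl1 := (mem_Ico.1 hl).1
    have hconj : ∀ z : ℂ, ‖z‖ = 1 → z * (starRingEnd ℂ) z = 1 := by
      intro z hz
      rw [Complex.mul_conj, Complex.normSq_eq_norm_sq, hz]
      norm_num
    have e1 : ∀ n, w ^ (n + l) * q ^ tri (n + l) * (starRingEnd ℂ) (w ^ n * q ^ tri n) =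
        (w ^ l * q ^ tri l) * (q ^ l) ^ n := by
      intro n
      have h3 := hconj (w ^ n) (by rw [norm_pow, hw, one_pow])
      have h4 := hconj (q ^ tri n) (by rw [norm_pow, hq, one_pow])
      rw [tri_add, pow_add, pow_add, pow_add, map_mul]
      have e2 : q ^ (n * l) = (q ^ l) ^ n := by rw [← pow_mul, mul_comm]
      rw [e2]
      linear_combination (w ^ l * q ^ tri l * (q ^ l) ^ n * (q ^ tri n * (starRingEnd ℂ) (q ^ tri n))) * h3 +
        (w ^ l * q ^ tri l * (q ^ l) ^ n) * h4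
    rw [sum_congr rfl fun n _ => e1 n, ← mul_sum, norm_mul, norm_mul, norm_pow, norm_pow, hw, hq, one_pow, one_pow,
      one_mul, one_mul]
    exact geom_bd (by rw [norm_pow, hq, one_pow]) (hq1 l hl1) _
  have h3 : (H : ℝ) * ‖∑ j ∈ range m, w ^ j * q ^ tri j‖ ^ 2 ≤ (m + H) * (m + C) := by
    refine h1.trans ?_
    gcongr
    rw [hC]
    gcongr with l hl
    exact h2 l hl
  have h4 : (m + H : ℝ) * (m + C) ≤ 4 * m ^ 2 := by
    have h5 : (H : ℝ) ≤ m := by linarith [show (0 : ℝ) ≤ M from Nat.cast_nonneg _]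
    have h6 : C ≤ m := by linarith
    have hm0 : (0 : ℝ) ≤ m := Nat.cast_nonneg _
    nlinarith
  have h5 : ‖∑ j ∈ range m, w ^ j * q ^ tri j‖ ^ 2 ≤ (ε * m) ^ 2 := by
    have h6 : 4 ≤ ε ^ 2 * H := by
      rw [div_lt_iff₀ (by positivity)] at hH
      linarith
    have h7 : (H : ℝ) * ‖∑ j ∈ range m, w ^ j * q ^ tri j‖ ^ 2 ≤ H * (ε * m) ^ 2 := by
      refine (h3.trans h4).trans ?_
      have : 0 ≤ (m : ℝ) ^ 2 := sq_nonneg _
      nlinarith
    exact le_of_mul_le_mul_left h7 hH0
  exact abs_le_of_sq_le_sq' h5 (by positivity) |>.2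

section

variable {Y₀ : Type} [CommGroup Y₀] [TopologicalSpace Y₀] [IsTopologicalGroup Y₀]

/-- the rotation of the circle -/
noncomputable def rot (η : ℝ) (z : Y₀ × Circle) : Y₀ × Circle := (z.1, Circle.exp (2 * Real.pi * η) * z.2)

/-- the flow of the rotations of the circle -/
noncomputable def rotFlow (Y₀ : Type) [CommGroup Y₀] [TopologicalSpace Y₀] : Flow ℝ (Y₀ × Circle) where
  toFun := rot
  cont' := by
    unfold Function.uncurry rot
    refine Continuous.prodMk (by fun_prop) ?_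
    refine Continuous.mul ?_ (by fun_prop)
    exact Circle.exp.continuous.comp (by fun_prop)
  map_add' := by
    intro s t z
    unfold rot
    refine Prod.ext rfl ?_
    show Circle.exp (2 * Real.pi * (s + t)) * z.2 = Circle.exp (2 * Real.pi * s) * (Circle.exp (2 * Real.pi * t) * z.2)
    rw [mul_add, Circle.exp_add, mul_assoc]
  map_zero' := by
    intro z
    refine Prod.ext rfl ?_
    show Circle.exp (2 * Real.pi * 0) * z.2 = z.2
    rw [mul_zero, Circle.exp_zero, one_mul]

theorem rotFlow_apply (η : ℝ) (z : Y₀ × Circle) : rotFlow Y₀ η z = rot η z := rfl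

theorem rot_one (z : Y₀ × Circle) : rot 1 z = z := by
  refine Prod.ext rfl ?_
  show Circle.exp (2 * Real.pi * 1) * z.2 = z.2
  rw [mul_one, Circle.exp_two_pi, one_mul]

/-- the circle extension `S(y, u) = (a y, c χ(y) u)` of the rotation by `a` -/
noncomputable def skewChar (a : Y₀) (χ : Y₀ →* Circle) (c : Circle) (z : Y₀ × Circle) : Y₀ × Circle := (a * z.1, c * χ z.1 * z.2)

theorem skewChar_rot (a : Y₀) (χ : Y₀ →* Circle) (c : Circle) (η : ℝ) (z : Y₀ × Circle) :
    skewChar a χ c (rot η z) = rot η (skewChar a χ c z) := by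
  refine Prod.ext rfl ?_
  show c * χ z.1 * (Circle.exp (2 * Real.pi * η) * z.2) = Circle.exp (2 * Real.pi * η) * (c * χ z.1 * z.2)
  rw [mul_left_comm]

theorem skewChar_iter (a : Y₀) (χ : Y₀ →* Circle) (c : Circle) (j : ℕ) (z : Y₀ × Circle) :
    (skewChar a χ c)^[j] z = (a ^ j * z.1, (c * χ z.1) ^ j * (χ a) ^ tri j * z.2) := by
  induction j with
  | zero => simp [tri]
  | succ j ih =>
    rw [Function.iterate_succ_apply', ih]
    unfold skewChar
    refine Prod.ext ?_ ?_
    · show a * (a ^ j * z.1) = a ^ (j + 1) * z.1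
      rw [pow_succ', mul_assoc]
    · show c * χ (a ^ j * z.1) * ((c * χ z.1) ^ j * (χ a) ^ tri j * z.2) =
        (c * χ z.1) ^ (j + 1) * (χ a) ^ tri (j + 1) * z.2
      rw [map_mul, map_pow, tri, pow_add (χ a), pow_succ (c * χ z.1)]
      generalize (c * χ z.1) ^ j = A
      have e : c * (χ a ^ j * χ z.1) * (A * χ a ^ tri j * z.2) =
        A * (c * χ z.1) * (χ a ^ tri j * χ a ^ j) * z.2 := by
        simp only [mul_assoc, mul_comm, mul_left_comm]
      exact e

/-- a character of the circle which is trivial at an element of infinite order is trivial -/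
theorem char_trivial {κ : Circle →* Circle} (hκ : Continuous κ) {v : Circle} (hv : ∀ n : ℕ, 1 ≤ n → v ^ n ≠ 1)
    (h : κ v = 1) (u : Circle) : κ u = 1 := by
  obtain ⟨x, hx⟩ : ∃ x : ℝ, Circle.exp (2 * Real.pi * x) = v := by
    refine ⟨Complex.arg v / (2 * Real.pi), ?_⟩
    rw [mul_div_cancel₀ _ (by positivity), Circle.exp_arg]
  have hirr : Irrational (x / 1) := by
    rw [div_one]
    rintro ⟨r, hr⟩
    apply hv r.den r.pos
    have e : (r.den : ℝ) * (2 * Real.pi * x) = (r.num : ℝ) * (2 * Real.pi) := by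
      rw [← hr]
      have h1 : (r.den : ℝ) * (r : ℝ) = r.num := by exact_mod_cast r.den_mul_eq_num
      linear_combination (2 * Real.pi) * h1
    rw [← hx]
    have h2 : Circle.exp (2 * Real.pi * x) ^ r.den = Circle.exp ((r.den : ℝ) * (2 * Real.pi * x)) := by
      rw [← nsmul_eq_mul, ← Circle.exp_nsmul]
    rw [h2, e]
    exact Circle.exp_int_mul_two_pi _
  have hd := dense_addSubgroupClosure_pair_iff.2 hirr
  have hc : Continuous fun t : ℝ => κ (Circle.exp (2 * Real.pi * t)) :=
    hκ.comp (Circle.exp.continuous.comp (by fun_prop))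
  have hadd : ∀ s t : ℝ, κ (Circle.exp (2 * Real.pi * (s + t))) =
      κ (Circle.exp (2 * Real.pi * s)) * κ (Circle.exp (2 * Real.pi * t)) := by
    intro s t
    rw [mul_add, Circle.exp_add, map_mul]
  have h1 : ∀ t ∈ (AddSubgroup.closure {x, (1 : ℝ)} : Set ℝ), κ (Circle.exp (2 * Real.pi * t)) = 1 := by
    intro t ht
    induction ht using AddSubgroup.closure_induction with
    | mem t ht =>
      rcases ht with rfl | ht
      · rw [hx, h]
      · rw [Set.mem_singleton_iff.1 ht, mul_one, Circle.exp_two_pi, map_one]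
    | zero => rw [mul_zero, Circle.exp_zero, map_one]
    | add s t _ _ hs ht => rw [hadd, hs, ht, one_mul]
    | neg t _ ht =>
      have h2 := hadd t (-t)
      rw [add_neg_cancel, mul_zero, Circle.exp_zero, map_one, ht, one_mul] at h2
      exact h2.symm
  have h2 : (fun t : ℝ => κ (Circle.exp (2 * Real.pi * t))) = fun _ => 1 :=
    Continuous.ext_on hd hc continuous_const h1
  have h3 := congrFun h2 (Complex.arg u / (2 * Real.pi))
  rwa [mul_div_cancel₀ _ (by positivity), Circle.exp_arg] at h3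

variable [CompactSpace Y₀] [T2Space Y₀]

/-- the differences of a continuous function along the circle have mean zero -/
theorem diff_avg {a : Y₀} {χ : Y₀ →* Circle} {c : Circle} (ha : ∀ n : ℕ, 1 ≤ n → (χ a) ^ n ≠ 1) (s : ℝ)
    (f : C(Y₀ × Circle, ℂ)) (ε : ℝ) (hε : 0 < ε) : ∃ m₀ : ℕ, ∀ m ≥ m₀, ∀ z,
      ‖∑ j ∈ range m, (f (rot s ((skewChar a χ c)^[j] z)) - f ((skewChar a χ c)^[j] z))‖ ≤ ε * m := by
  have h2 : f ∈ closure ((Submodule.span ℂ (chars (Y₀ × Circle)) : Submodule ℂ C(Y₀ × Circle, ℂ)) :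
      Set C(Y₀ × Circle, ℂ)) := by
    have h1 : f ∈ (Submodule.span ℂ (chars (Y₀ × Circle))).topologicalClosure := by
      rw [chars_dense]
      trivial
    exact h1
  -- the trigonometric polynomials
  have key : ∀ g ∈ Submodule.span ℂ (chars (Y₀ × Circle)), ∀ ε : ℝ, 0 < ε → ∃ m₀ : ℕ, ∀ m ≥ m₀, ∀ z,
      ‖∑ j ∈ range m, (g (rot s ((skewChar a χ c)^[j] z)) - g ((skewChar a χ c)^[j] z))‖ ≤ ε * m := by
    intro g hg
    induction hg using Submodule.span_induction with
    | mem g hg =>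
      intro ε hε
      obtain ⟨κ, hκ, hg⟩ := hg
      set κ₂ : Circle →* Circle := κ.comp (MonoidHom.inr Y₀ Circle) with hκ₂
      have hκ₂c : Continuous κ₂ := hκ.comp (by
        show Continuous fun u : Circle => ((1 : Y₀), u)
        fun_prop)
      have hsplit : ∀ (y : Y₀) (u v : Circle), κ (y, u * v) = κ₂ u * κ (y, v) := by
        intro y u v
        rw [hκ₂]
        show κ (y, u * v) = κ (1, u) * κ (y, v)
        rw [← map_mul, Prod.mk_mul_mk, one_mul]
      by_cases hfin : ∃ n : ℕ, 1 ≤ n ∧ κ₂ (χ a) ^ n = 1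
      · obtain ⟨n, hn, h3⟩ := hfin
        have h4 : κ₂ ((χ a) ^ n) = 1 := by rw [map_pow, h3]
        have h5 := char_trivial hκ₂c (v := (χ a) ^ n) (fun k hk => by
          rw [← pow_mul]
          exact ha _ (Nat.mul_pos hn hk)) h4
        refine ⟨0, fun m _ z => ?_⟩
        have h6 : ∀ z, g (rot s z) = g z := by
          intro z
          rw [hg, hg]
          unfold rot
          rw [hsplit, h5, one_mul]
        simp only [h6, sub_self, sum_const_zero, norm_zero]
        positivity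
      · push Not at hfin
        have hq : ‖((κ₂ (χ a) : Circle) : ℂ)‖ = 1 := Circle.norm_coe _
        obtain ⟨m₀, hm₀⟩ := weyl hq (fun n hn h3 => hfin n hn (by
          apply Subtype.ext
          rw [← Circle.coe_pow] at h3
          exact h3)) (show 0 < ε / 2 by positivity)
        refine ⟨m₀, fun m hm z => ?_⟩
        have e1 : ∀ j, g ((skewChar a χ c)^[j] z) = (κ z : ℂ) *
            (((κ (a, c * χ z.1) : Circle) : ℂ) ^ j * ((κ₂ (χ a) : Circle) : ℂ) ^ tri j) := by
          intro j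
          rw [hg, skewChar_iter]
          have h7 : (a ^ j * z.1, (c * χ z.1) ^ j * (χ a) ^ tri j * z.2) =
              (a, c * χ z.1) ^ j * ((MonoidHom.inr Y₀ Circle (χ a)) ^ tri j) * z := by
            refine Prod.ext ?_ ?_
            · simp
            · simp
          rw [h7, map_mul, map_mul, map_pow, map_pow]
          have h8 : κ (MonoidHom.inr Y₀ Circle (χ a)) = κ₂ (χ a) := rfl
          rw [h8]
          push_cast
          ring
        have e2 : ∀ z, g (rot s z) = (κ₂ (Circle.exp (2 * Real.pi * s)) : ℂ) * g z := by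
          intro z
          rw [hg, hg]
          unfold rot
          rw [hsplit, Circle.coe_mul]
        have e3 : ∑ j ∈ range m, (g (rot s ((skewChar a χ c)^[j] z)) - g ((skewChar a χ c)^[j] z)) =
            ((κ₂ (Circle.exp (2 * Real.pi * s)) : ℂ) - 1) * ((κ z : ℂ) *
              ∑ j ∈ range m, (((κ (a, c * χ z.1) : Circle) : ℂ) ^ j * ((κ₂ (χ a) : Circle) : ℂ) ^ tri j)) := by
          rw [mul_sum, mul_sum]
          refine sum_congr rfl fun j _ => ?_
          rw [e2, ← e1]
          ring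
        rw [e3, norm_mul, norm_mul, Circle.norm_coe, one_mul]
        have h8 : ‖(κ₂ (Circle.exp (2 * Real.pi * s)) : ℂ) - 1‖ ≤ 2 := by
          refine (norm_sub_le _ _).trans ?_
          rw [Circle.norm_coe, norm_one]
          norm_num
        have h9 := hm₀ m hm _ (Circle.norm_coe (κ (a, c * χ z.1)))
        calc _ ≤ 2 * (ε / 2 * m) := mul_le_mul h8 h9 (norm_nonneg _) (by norm_num)
          _ = ε * m := by ring
    | zero => exact fun ε hε => ⟨0, fun m _ z => by simp; positivity⟩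
    | add g₁ g₂ _ _ ih₁ ih₂ =>
      intro ε hε
      obtain ⟨m₁, h1⟩ := ih₁ (ε / 2) (by positivity)
      obtain ⟨m₂, h2⟩ := ih₂ (ε / 2) (by positivity)
      refine ⟨max m₁ m₂, fun m hm z => ?_⟩
      have e : ∑ j ∈ range m, ((g₁ + g₂) (rot s ((skewChar a χ c)^[j] z)) - (g₁ + g₂) ((skewChar a χ c)^[j] z)) =
          ∑ j ∈ range m, (g₁ (rot s ((skewChar a χ c)^[j] z)) - g₁ ((skewChar a χ c)^[j] z)) +
          ∑ j ∈ range m, (g₂ (rot s ((skewChar a χ c)^[j] z)) - g₂ ((skewChar a χ c)^[j] z)) := by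
        rw [← sum_add_distrib]
        refine sum_congr rfl fun j _ => ?_
        rw [ContinuousMap.add_apply, ContinuousMap.add_apply]
        ring
      rw [e]
      refine (norm_add_le _ _).trans ?_
      have := h1 m (le_trans (le_max_left _ _) hm) z
      have := h2 m (le_trans (le_max_right _ _) hm) z
      linarith
    | smul r g₁ _ ih₁ =>
      intro ε hε
      obtain ⟨m₁, h1⟩ := ih₁ (ε / (‖r‖ + 1)) (by positivity)
      refine ⟨m₁, fun m hm z => ?_⟩
      have e : ∑ j ∈ range m, ((r • g₁) (rot s ((skewChar a χ c)^[j] z)) - (r • g₁) ((skewChar a χ c)^[j] z)) =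
          r * ∑ j ∈ range m, (g₁ (rot s ((skewChar a χ c)^[j] z)) - g₁ ((skewChar a χ c)^[j] z)) := by
        rw [mul_sum]
        refine sum_congr rfl fun j _ => ?_
        rw [ContinuousMap.smul_apply, ContinuousMap.smul_apply, smul_eq_mul, smul_eq_mul]
        ring
      rw [e, norm_mul]
      have h3 := h1 m hm z
      calc ‖r‖ * _ ≤ (‖r‖ + 1) * (ε / (‖r‖ + 1) * m) :=
            mul_le_mul (by linarith) h3 (norm_nonneg _) (by positivity)
        _ = ε * m := by field_simp
  rw [Metric.mem_closure_iff] at h2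
  obtain ⟨g, hg, hd⟩ := h2 (ε / 4) (by positivity)
  obtain ⟨m₀, hm₀⟩ := key g hg (ε / 2) (by positivity)
  refine ⟨m₀, fun m hm z => ?_⟩
  have hfg : ∀ z, ‖f z - g z‖ ≤ ε / 4 := by
    intro z
    have h5 := (f - g).norm_coe_le_norm z
    rw [dist_eq_norm] at hd
    exact h5.trans hd.le
  have e : ∑ j ∈ range m, (f (rot s ((skewChar a χ c)^[j] z)) - f ((skewChar a χ c)^[j] z)) =
      ∑ j ∈ range m, (g (rot s ((skewChar a χ c)^[j] z)) - g ((skewChar a χ c)^[j] z)) +
      ∑ j ∈ range m, ((f (rot s ((skewChar a χ c)^[j] z)) - g (rot s ((skewChar a χ c)^[j] z))) -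
        (f ((skewChar a χ c)^[j] z) - g ((skewChar a χ c)^[j] z))) := by
    rw [← sum_add_distrib]
    refine sum_congr rfl fun j _ => ?_
    ring
  rw [e]
  refine (norm_add_le _ _).trans ?_
  have h3 := hm₀ m hm z
  have h4 : ‖∑ j ∈ range m, ((f (rot s ((skewChar a χ c)^[j] z)) - g (rot s ((skewChar a χ c)^[j] z))) -
        (f ((skewChar a χ c)^[j] z) - g ((skewChar a χ c)^[j] z)))‖ ≤ ε / 2 * m := by
    refine (norm_sum_le _ _).trans ?_
    calc _ ≤ ∑ _j ∈ range m, ε / 2 := sum_le_sum fun j _ => by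
            refine (norm_sub_le _ _).trans ?_
            have := hfg (rot s ((skewChar a χ c)^[j] z))
            have := hfg ((skewChar a χ c)^[j] z)
            linarith
      _ = ε / 2 * m := by simp; ring
  linarith

end

end Pool.Agent.Zk39.TT
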